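import Mathlib
import Pool.Agent.X266.SBL.Core

/-!
# Independent domination in 3-(γ,2)-critical graphs

1. There is a 3-edge-critical graph with 24 vertices and independent domination number 4. It was
   found with a SAT solver (prescribed automorphism of order 8); `m x` are the non-neighbours of
   `x`.
2. Every `3`-`(γ,2)`-critical graph with `i > 3` has diameter 2, so that it is `3`-edge-critical:
   if there is one pair of non-adjacent vertices without common neighbour, then `i = 3`.
-/

set_option autoImplicit false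

open Finset

namespace Pool.Agent.Results.MP_e46b0b_co.TwentyFour

/-- every vertex outside `D` has a neighbour in `D` -/
def IsDominating {V : Type} (G : SimpleGraph V) (D : Finset V) : Prop :=
  ∀ v, v ∉ D → ∃ d ∈ D, G.Adj v d

/-- no two vertices of `D` are adjacent -/
def IsIndependent {V : Type} (G : SimpleGraph V) (D : Finset V) : Prop :=
  ∀ u ∈ D, ∀ v ∈ D, ¬ G.Adj u v

/-- the least size of a dominating set -/
noncomputable def dominationNumber {V : Type} (G : SimpleGraph V) : ℕ :=
  sInf {k : ℕ | ∃ D : Finset V, D.card = k ∧ IsDominating G D}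

/-- the least size of an independent dominating set -/
noncomputable def independentDominationNumber {V : Type} (G : SimpleGraph V) : ℕ :=
  sInf {k : ℕ | ∃ D : Finset V, D.card = k ∧ IsDominating G D ∧ IsIndependent G D}

/-- `3`-`(γ,r)`-critical: `γ(G) = 3`, and `γ(G + uv) < 3` for all distinct non-adjacent `u, v` with
`d(u, v) ≤ r` (`SimpleGraph.edist` is the distance, `⊤` between different components). -/
def LocallyCritical {V : Type} (G : SimpleGraph V) (r : ℕ) : Prop :=
  dominationNumber G = 3 ∧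
    ∀ u v : V, u ≠ v → ¬ G.Adj u v → G.edist u v ≤ r →
      dominationNumber (G ⊔ SimpleGraph.edge u v) < 3

/-- `3`-edge-critical: `γ(G) = 3`, and `γ(G + uv) < 3` for all distinct non-adjacent `u, v`. -/
def EdgeCritical {V : Type} (G : SimpleGraph V) : Prop :=
  dominationNumber G = 3 ∧
    ∀ u v : V, u ≠ v → ¬ G.Adj u v → dominationNumber (G ⊔ SimpleGraph.edge u v) < 3

/-- the non-neighbours of the vertices, as bit masks -/
def hm : List Nat :=
  [3736900, 7473800, 14947345, 13183010, 9654340, 2597000, 5128465, 10256930,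
   1638465, 3276930, 6553605, 13107210, 9502740, 2293800, 4587600, 9175200,
   1061177, 2122354, 4244708, 8423881, 70547, 140839, 281678, 563356]

/-- the mask of a vertex -/
def m (x : Fin 24) : Nat := hm.getD x 0

theorem m_symm : ∀ x y : Fin 24, (m x).testBit y = (m y).testBit x := by decide +kernel

theorem m_irrefl : ∀ x : Fin 24, (m x).testBit x = false := by decide +kernel

theorem m_lt : ∀ x : Fin 24, m x < 2 ^ 24 := by decide +kernel

/-- the complement of the graph `H` -/
def G : SimpleGraph (Fin 24) where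
  Adj x y := x ≠ y ∧ (m x).testBit y = false
  symm := ⟨fun x y h => ⟨h.1.symm, by rw [← m_symm]; exact h.2⟩⟩
  loopless := ⟨fun x h => h.1 rfl⟩

theorem exists_bit {a b : Fin 24} (h : Nat.land (m a) (m b) ≠ 0) :
    ∃ x : Fin 24, (m a).testBit x = true ∧ (m b).testBit x = true := by
  obtain ⟨i, hi⟩ := Nat.exists_testBit_of_ne_zero h
  have h1 : ((m a) &&& (m b)).testBit i = true := hi
  rw [Nat.testBit_and, Bool.and_eq_true] at h1
  have hlt : i < 24 := by
    by_contra hge
    have h5 : m a < 2 ^ i := lt_of_lt_of_le (m_lt a) (Nat.pow_le_pow_right (by norm_num) (by omega))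
    rw [Nat.testBit_lt_two_pow h5] at h1
    exact absurd h1.1 (by simp)
  exact ⟨⟨i, hlt⟩, h1.1, h1.2⟩

theorem two_common : ∀ a b : Fin 24, Nat.land (m a) (m b) ≠ 0 := by decide +kernel

theorem three_common : ∀ a b : Fin 24, (m a).testBit b = true → ∀ c : Fin 24,
    (m a).testBit c = true → (m b).testBit c = true →
      Nat.land (Nat.land (m a) (m b)) (m c) ≠ 0 := by decide +kernel

theorem edge_crit : ∀ u v : Fin 24, (m u).testBit v = true →
    ∃ w : Fin 24, (w ≠ u ∧ w ≠ v) ∧
      (Nat.land (m u) (m w) = 2 ^ (v : ℕ) ∨ Nat.land (m v) (m w) = 2 ^ (u : ℕ)) := by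
  decide +kernel

theorem not_dom_two (D : Finset (Fin 24)) (hD : D.card ≤ 2) : ¬ IsDominating G D := by
  intro h
  obtain ⟨a, b, hab⟩ : ∃ a b : Fin 24, D ⊆ {a, b} := by
    rcases Nat.lt_or_ge D.card 1 with h0 | h0
    · have : D = ∅ := Finset.card_eq_zero.1 (by omega)
      exact ⟨0, 0, by rw [this]; exact Finset.empty_subset _⟩
    · rcases Nat.lt_or_ge D.card 2 with h1 | h1
      · obtain ⟨a, rfl⟩ := Finset.card_eq_one.1 (show D.card = 1 by omega)
        exact ⟨a, a, by simp⟩
      · obtain ⟨a, b, -, rfl⟩ := Finset.card_eq_two.1 (show D.card = 2 by omega)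
        exact ⟨a, b, subset_rfl⟩
  obtain ⟨x, hxa, hxb⟩ := exists_bit (two_common a b)
  have hxa' : x ≠ a := by rintro rfl; rw [m_irrefl] at hxa; exact absurd hxa (by simp)
  have hxb' : x ≠ b := by rintro rfl; rw [m_irrefl] at hxb; exact absurd hxb (by simp)
  have hx : x ∉ D := by
    intro hx
    have := hab hx
    simp only [Finset.mem_insert, Finset.mem_singleton] at this
    tauto
  obtain ⟨d, hd, hadj⟩ := h x hx
  have hd' := hab hd
  simp only [Finset.mem_insert, Finset.mem_singleton] at hd'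
  have h2 := hadj.2
  rw [m_symm] at h2
  rcases hd' with rfl | rfl
  · rw [hxa] at h2; exact absurd h2 (by simp)
  · rw [hxb] at h2; exact absurd h2 (by simp)

theorem dom_of {D : Finset (Fin 24)} (h : ∀ x : Fin 24, x ∉ D → ∃ d ∈ D, (m x).testBit d = false) :
    IsDominating G D := by
  intro x hx
  obtain ⟨d, hd, h1⟩ := h x hx
  exact ⟨d, hd, fun h2 => hx (h2 ▸ hd), h1⟩

theorem gamma_three : dominationNumber G = 3 := by
  have hmem : 3 ∈ {k : ℕ | ∃ D : Finset (Fin 24), D.card = k ∧ IsDominating G D} :=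
    ⟨{0, 1, 3}, by decide, dom_of (by decide +kernel)⟩
  refine le_antisymm (Nat.sInf_le hmem) ?_
  by_contra hlt
  push Not at hlt
  obtain ⟨D, h1, h2⟩ := Nat.sInf_mem ⟨3, hmem⟩
  have h3 : D.card ≤ 2 := by
    rw [h1]
    exact Nat.le_of_lt_succ hlt
  exact not_dom_two D h3 h2

theorem crit_aux {u v w : Fin 24} (huw : Nat.land (m u) (m w) = 2 ^ (v : ℕ))
    (huv : u ≠ v) (hwu : w ≠ u) :
    ∃ D : Finset (Fin 24), D.card = 2 ∧ IsDominating (G ⊔ SimpleGraph.edge u v) D := by
  refine ⟨{u, w}, Finset.card_pair hwu.symm, ?_⟩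
  intro x hx
  simp only [Finset.mem_insert, Finset.mem_singleton, not_or] at hx
  by_cases hxv : x = v
  · subst hxv
    refine ⟨u, by simp, ?_⟩
    rw [SimpleGraph.sup_adj]
    right
    rw [SimpleGraph.edge_adj]
    exact ⟨Or.inr ⟨rfl, rfl⟩, huv.symm⟩
  · have h1 : ((m u) &&& (m w)).testBit x = false := by
      have h0 : (m u) &&& (m w) = 2 ^ (v : ℕ) := huw
      rw [h0, Nat.testBit_two_pow]
      simp only [decide_eq_false_iff_not]
      intro h
      exact hxv (Fin.ext h.symm)
    rw [Nat.testBit_and, Bool.and_eq_false_iff] at h1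
    rcases h1 with h1 | h1
    · refine ⟨u, by simp, ?_⟩
      rw [SimpleGraph.sup_adj]
      left
      exact ⟨hx.1, by rw [m_symm]; exact h1⟩
    · refine ⟨w, by simp, ?_⟩
      rw [SimpleGraph.sup_adj]
      left
      exact ⟨hx.2, by rw [m_symm]; exact h1⟩

theorem critical (u v : Fin 24) (huv : u ≠ v) (hadj : ¬ G.Adj u v) :
    dominationNumber (G ⊔ SimpleGraph.edge u v) < 3 := by
  have h1 : (m u).testBit v = true := by
    by_contra h
    exact hadj ⟨huv, by simpa using h⟩
  obtain ⟨w, ⟨hwu, hwv⟩, h | h⟩ := edge_crit u v h1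
  · obtain ⟨D, hD1, hD2⟩ := crit_aux h huv hwu
    exact lt_of_le_of_lt (Nat.sInf_le ⟨D, hD1, hD2⟩) (by norm_num)
  · obtain ⟨D, hD1, hD2⟩ := crit_aux h huv.symm hwv
    rw [SimpleGraph.edge_comm] at hD2
    exact lt_of_le_of_lt (Nat.sInf_le ⟨D, hD1, hD2⟩) (by norm_num)

theorem not_indep_three (D : Finset (Fin 24)) (hD : D.card ≤ 3) (h : IsDominating G D)
    (hi : IsIndependent G D) : False := by
  rcases Nat.lt_or_ge D.card 3 with h3 | h3
  · exact not_dom_two D (by omega) h
  · obtain ⟨a, b, c, hab, hac, hbc, rfl⟩ := Finset.card_eq_three.1 (show D.card = 3 by omega)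
    have key : ∀ x y : Fin 24, x ≠ y → ¬ G.Adj x y → (m x).testBit y = true := by
      intro x y hxy hadj
      by_contra h
      exact hadj ⟨hxy, by simpa using h⟩
    have h1 := key a b hab (hi a (by simp) b (by simp))
    have h2 := key a c hac (hi a (by simp) c (by simp))
    have h4 := key b c hbc (hi b (by simp) c (by simp))
    have h5 := three_common a b h1 c h2 h4
    obtain ⟨i, hi5⟩ := Nat.exists_testBit_of_ne_zero h5
    have h6 : (((m a) &&& (m b)) &&& (m c)).testBit i = true := hi5
    rw [Nat.testBit_and, Nat.testBit_and, Bool.and_eq_true, Bool.and_eq_true] at h6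
    obtain ⟨⟨ha, hb⟩, hc⟩ := h6
    have hlt : i < 24 := by
      by_contra hge
      have h7 : m a < 2 ^ i :=
        lt_of_lt_of_le (m_lt a) (Nat.pow_le_pow_right (by norm_num) (by omega))
      rw [Nat.testBit_lt_two_pow h7] at ha
      exact absurd ha (by simp)
    have hne : ∀ y : Fin 24, (m y).testBit i = true → (⟨i, hlt⟩ : Fin 24) ≠ y := by
      intro y hy h8
      have := m_irrefl y
      rw [← h8] at this hy
      rw [this] at hy
      exact absurd hy (by simp)
    have hx : (⟨i, hlt⟩ : Fin 24) ∉ ({a, b, c} : Finset (Fin 24)) := by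
      simp only [Finset.mem_insert, Finset.mem_singleton, not_or]
      exact ⟨hne a ha, hne b hb, hne c hc⟩
    obtain ⟨d, hd, hadj⟩ := h _ hx
    have h9 := hadj.2
    rw [m_symm] at h9
    simp only [Finset.mem_insert, Finset.mem_singleton] at hd
    rcases hd with rfl | rfl | rfl
    · exact absurd (ha.symm.trans h9) (by simp)
    · exact absurd (hb.symm.trans h9) (by simp)
    · exact absurd (hc.symm.trans h9) (by simp)

theorem i_four : independentDominationNumber G = 4 := by
  have hmem : 4 ∈ {k : ℕ | ∃ D : Finset (Fin 24), D.card = k ∧ IsDominating G D ∧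
      IsIndependent G D} := by
    refine ⟨{0, 2, 10, 21}, by decide, dom_of (by decide +kernel), ?_⟩
    have h : ∀ u ∈ ({0, 2, 10, 21} : Finset (Fin 24)), ∀ v ∈ ({0, 2, 10, 21} : Finset (Fin 24)),
        u = v ∨ (m u).testBit v = true := by decide +kernel
    rintro u hu v hv ⟨h1, h2⟩
    rcases h u hu v hv with h3 | h3
    · exact h1 h3
    · rw [h3] at h2; exact absurd h2 (by simp)
  refine le_antisymm (Nat.sInf_le hmem) ?_
  by_contra hlt
  push Not at hlt
  obtain ⟨D, h1, h2, h3⟩ := Nat.sInf_mem ⟨4, hmem⟩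
  have h4 : D.card ≤ 3 := by
    rw [h1]
    exact Nat.le_of_lt_succ hlt
  exact not_indep_three D h4 h2 h3


/-! ### Graphs with a pair at distance at least 3 -/

section general

open Pool.Agent.X266.SBL

/-- distinct and non-adjacent -/
def H {V : Type} (G : SimpleGraph V) (p q : V) : Prop := p ≠ q ∧ ¬ G.Adj p q

theorem H_symm {V : Type} (G : SimpleGraph V) (p q : V) (h : H G p q) : H G q p :=
  ⟨h.1.symm, fun h1 => h.2 h1.symm⟩

theorem H_irrefl {V : Type} (G : SimpleGraph V) (p : V) : ¬ H G p p := fun h => h.1 rfl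

theorem cr_of {V : Type} (G : SimpleGraph V) {p q : V} {D : Finset V}
    (hD : IsDominating (G ⊔ SimpleGraph.edge p q) D) (hc : D.card ≤ 2) (hp : p ∈ D) :
    Cr (H G) p q := by
  classical
  have : Nonempty V := ⟨p⟩
  have h1 : (D.erase p).card ≤ 1 := by
    rw [Finset.card_erase_of_mem hp]; omega
  obtain ⟨x, hx⟩ := Finset.card_le_one_iff_subset_singleton.1 h1
  refine ⟨x, fun w hwp hwx => ?_⟩
  have hmem : ∀ d ∈ D, d = p ∨ d = x := by
    intro d hd
    by_cases h : d = p
    · exact Or.inl h
    · exact Or.inr (Finset.mem_singleton.1 (hx (Finset.mem_erase.2 ⟨h, hd⟩)))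
  have hw : w ∉ D := by
    intro hw
    rcases hmem w hw with h | h
    · exact hwp.1 h
    · exact hwx.1 h
  obtain ⟨d, hd, hadj⟩ := hD w hw
  rw [SimpleGraph.sup_adj, SimpleGraph.edge_adj] at hadj
  rcases hadj with hadj | ⟨⟨h2, h3⟩ | ⟨h2, h3⟩, _⟩
  · rcases hmem d hd with rfl | rfl
    · exact absurd hadj hwp.2
    · exact absurd hadj hwx.2
  · exact absurd h2 hwp.1
  · exact h2

theorem only_diameter_two {V : Type} [Fintype V] (G : SimpleGraph V) (hG : LocallyCritical G 2)
    (hi : independentDominationNumber G ≠ 3) (u v : V) (huv : u ≠ v) (hadj : ¬ G.Adj u v) :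
    ∃ w, G.Adj u w ∧ G.Adj w v := by
  classical
  have h3 : ∀ D : Finset V, IsDominating G D → 3 ≤ D.card := by
    intro D hD
    have h : dominationNumber G ≤ D.card := Nat.sInf_le ⟨D, rfl, hD⟩
    rw [hG.1] at h
    exact h
  have hI : ∀ D : Finset V, IsDominating G D → IsIndependent G D → D.card ≠ 3 := by
    intro D hD1 hD2 hD3
    apply hi
    have hmem : 3 ∈ {k : ℕ | ∃ D : Finset V, D.card = k ∧ IsDominating G D ∧
        IsIndependent G D} := ⟨D, hD3, hD1, hD2⟩
    refine le_antisymm (Nat.sInf_le hmem) ?_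
    obtain ⟨E, hE1, hE2, _⟩ := Nat.sInf_mem ⟨3, hmem⟩
    have := h3 E hE2
    rw [hE1] at this
    exact this
  have F1 : ∀ a b : V, ∃ x, H G x a ∧ H G x b := by
    intro a b
    by_contra hcon
    push Not at hcon
    have hd : IsDominating G ({a, b} : Finset V) := by
      intro x hx
      simp only [Finset.mem_insert, Finset.mem_singleton, not_or] at hx
      by_cases h : G.Adj x a
      · exact ⟨a, by simp, h⟩
      · have h1 := hcon x ⟨hx.1, h⟩
        by_cases h2 : G.Adj x b
        · exact ⟨b, by simp, h2⟩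
        · exact absurd ⟨hx.2, h2⟩ h1
    have h4 := h3 _ hd
    have h5 := Finset.card_le_two (a := a) (b := b)
    omega
  have F2 : ∀ a b c : V, H G a b → H G a c → H G b c →
      ∃ x, H G x a ∧ H G x b ∧ H G x c := by
    intro a b c hab hac hbc
    by_contra hcon
    push Not at hcon
    refine hI {a, b, c} ?_ ?_ (Finset.card_eq_three.2 ⟨a, b, c, hab.1, hac.1, hbc.1, rfl⟩)
    · intro x hx
      simp only [Finset.mem_insert, Finset.mem_singleton, not_or] at hx
      by_cases h1 : G.Adj x a
      · exact ⟨a, by simp, h1⟩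
      by_cases h2 : G.Adj x b
      · exact ⟨b, by simp, h2⟩
      by_cases h4 : G.Adj x c
      · exact ⟨c, by simp, h4⟩
      exact absurd ⟨hx.2.2, h4⟩ (hcon x ⟨hx.1, h1⟩ ⟨hx.2.1, h2⟩)
    · intro x hx y hy
      simp only [Finset.mem_insert, Finset.mem_singleton] at hx hy
      rcases hx with rfl | rfl | rfl <;> rcases hy with rfl | rfl | rfl
      · exact G.loopless.irrefl _
      · exact hab.2
      · exact hac.2
      · exact fun h => hab.2 h.symm
      · exact G.loopless.irrefl _
      · exact hbc.2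
      · exact fun h => hac.2 h.symm
      · exact fun h => hbc.2 h.symm
      · exact G.loopless.irrefl _
  have hEx : ∀ p q : V, H G p q → (¬ ∃ w, G.Adj p w ∧ G.Adj w q) → Ex (H G) p q := by
    intro p q hpq hno
    refine ⟨hpq, fun w => ?_⟩
    by_contra hcon
    push Not at hcon
    obtain ⟨h1, h2, h4, h5⟩ := hcon
    refine hno ⟨w, ?_, ?_⟩
    · by_contra h6
      exact h4 ⟨h1, fun h7 => h6 h7.symm⟩
    · by_contra h6
      exact h5 ⟨h2, h6⟩
  have F3 : ∀ p q : V, H G p q → Ex (H G) p q ∨ Cr (H G) p q ∨ Cr (H G) q p := by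
    intro p q hpq
    by_cases hno : ∃ w, G.Adj p w ∧ G.Adj w q
    · right
      obtain ⟨w, hw1, hw2⟩ := hno
      have hdist : G.edist p q ≤ 2 := by
        have := SimpleGraph.edist_le (SimpleGraph.Walk.cons hw1
          (SimpleGraph.Walk.cons hw2 SimpleGraph.Walk.nil))
        simpa using this
      have hlt := hG.2 p q hpq.1 hpq.2 hdist
      have hne : {k : ℕ | ∃ D : Finset V, D.card = k ∧
          IsDominating (G ⊔ SimpleGraph.edge p q) D}.Nonempty :=
        ⟨_, Finset.univ, rfl, fun v hv => absurd (Finset.mem_univ v) hv⟩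
      obtain ⟨D, hD1, hD2⟩ := Nat.sInf_mem hne
      have hc : D.card ≤ 2 := by
        rw [hD1]; exact Nat.le_of_lt_succ hlt
      have hnd : ¬ IsDominating G D := fun h => by have := h3 D h; omega
      unfold IsDominating at hnd
      push Not at hnd
      obtain ⟨x, hx1, hx2⟩ := hnd
      obtain ⟨d, hd, hadj'⟩ := hD2 x hx1
      rw [SimpleGraph.sup_adj, SimpleGraph.edge_adj] at hadj'
      rcases hadj' with h | ⟨⟨h4, h5⟩ | ⟨h4, h5⟩, _⟩
      · exact absurd h (hx2 d hd)
      · right
        rw [SimpleGraph.edge_comm] at hD2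
        exact cr_of G hD2 hc (by rw [← h5]; exact hd)
      · left
        exact cr_of G hD2 hc (by rw [← h5]; exact hd)
    · exact Or.inl (hEx p q hpq hno)
  by_contra hno
  have hall := ex_everywhere (H_symm G) (H_irrefl G) F1 F2 F3 (hEx u v ⟨huv, hadj⟩ hno)
  have hne : {k : ℕ | ∃ D : Finset V, D.card = k ∧ IsDominating G D}.Nonempty :=
    ⟨_, Finset.univ, rfl, fun v hv => absurd (Finset.mem_univ v) hv⟩
  obtain ⟨D, hD1, hD2⟩ := Nat.sInf_mem hne
  have hD3 : D.card = 3 := hD1.trans hG.1
  refine hI D hD2 ?_ hD3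
  intro a ha b hb hab
  have hne' : a ≠ b := hab.ne
  have hdom : IsDominating G (D.erase b) := by
    intro x hx
    by_cases hxb : x = b
    · subst hxb
      exact ⟨a, Finset.mem_erase.2 ⟨hne', ha⟩, hab.symm⟩
    · have hxD : x ∉ D := fun h => hx (Finset.mem_erase.2 ⟨hxb, h⟩)
      obtain ⟨d, hd, hxd⟩ := hD2 x hxD
      by_cases hdb : d = b
      · subst hdb
        refine ⟨a, Finset.mem_erase.2 ⟨hne', ha⟩, ?_⟩
        by_contra hxa
        have hxa' : x ≠ a := fun h => hxD (h ▸ ha)
        rcases (hall x a ⟨hxa', hxa⟩).2 d with h | h | h | h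
        · exact hxb h.symm
        · exact hne' h.symm
        · exact h.2 hxd.symm
        · exact h.2 hab.symm
      · exact ⟨d, Finset.mem_erase.2 ⟨hdb, hd⟩, hxd⟩
  have h6 := h3 _ hdom
  rw [Finset.card_erase_of_mem hb] at h6
  omega

end general

/-- The question of Henning, Oellermann and Swart for `k = 3`, `r = 2`.
(1) There is a `3`-`(γ,2)`-critical (indeed `3`-edge-critical) graph with 24 vertices and `i = 4`.
(2) Every `3`-`(γ,2)`-critical graph with `i ≠ 3` is `3`-edge-critical, and any two distinct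
non-adjacent vertices of it have a common neighbour (diameter 2). -/
theorem result :
    (∃ G : SimpleGraph (Fin 24), LocallyCritical G 2 ∧ EdgeCritical G ∧ dominationNumber G = 3 ∧
      independentDominationNumber G = 4) ∧
    (∀ (V : Type) [Fintype V] (G : SimpleGraph V), LocallyCritical G 2 →
      independentDominationNumber G ≠ 3 →
      EdgeCritical G ∧ ∀ u v : V, u ≠ v → ¬ G.Adj u v → ∃ w, G.Adj u w ∧ G.Adj w v) := by
  refine ⟨⟨G, ⟨gamma_three, fun u v h1 h2 _ => critical u v h1 h2⟩, ⟨gamma_three, critical⟩,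
    gamma_three, i_four⟩, ?_⟩
  intro V _ G hG hi
  have h := only_diameter_two G hG hi
  refine ⟨⟨hG.1, fun u v huv hadj => hG.2 u v huv hadj ?_⟩, h⟩
  obtain ⟨w, hw1, hw2⟩ := h u v huv hadj
  have := SimpleGraph.edist_le (SimpleGraph.Walk.cons hw1
    (SimpleGraph.Walk.cons hw2 SimpleGraph.Walk.nil))
  simpa using this

end Pool.Agent.Results.MP_e46b0b_co.TwentyFour
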